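import Mathlib

set_option autoImplicit false

namespace Pool.Agent.Results.MP_e3e024_co.FanoLabels

open Finset

/-- The `ℓ`-th xor-power of the Kneser graph `KG(n,k)`: vertices are `ℓ`-tuples of `k`-subsets of an
`n`-element set, two distinct tuples being adjacent iff they are disjoint in an odd number of
coordinates. -/
def KGpow (l n k : ℕ) : SimpleGraph (Fin l → {X : Finset (Fin n) // X.card = k}) where
  Adj X Y := X ≠ Y ∧ Odd (univ.filter (fun i => Disjoint (X i).1 (Y i).1)).card
  symm := ⟨by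
    rintro X Y ⟨h1, h2⟩
    refine ⟨h1.symm, ?_⟩
    have : univ.filter (fun i => Disjoint (Y i).1 (X i).1) =
        univ.filter (fun i => Disjoint (X i).1 (Y i).1) := by
      ext i
      simp only [mem_filter, mem_univ, true_and]
      exact disjoint_comm
    rwa [this]⟩
  loopless := ⟨fun X h => h.1 rfl⟩

/-- The clique number `f_ℓ(n,k)`. -/
noncomputable def f (l n k : ℕ) : ℕ := (KGpow l n k).cliqueNum

/-- The exponent `e(ℓ) = ⌊log₂(ℓ+1)⌋`. -/
def e (l : ℕ) : ℕ := Nat.log 2 (l + 1)

/-! ### Labels -/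

/-- The four slots of each of the five blocks: slot `j` of block `i` carries the linear form
`pt i j` (a nonzero triple of bits, i.e. a point of the Fano plane). The blocks are
`{100}`, `{010,110}`, `{001,011,101}`, `{010,011,100,111}`, `{001,101,110,111}`. -/
def pt : Fin 5 → Fin 4 → Bool × Bool × Bool
  | 0 => ![(true, false, false), (true, false, false), (true, false, false), (true, false, false)]
  | 1 => ![(false, true, false), (true, true, false), (true, true, false), (true, true, false)]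
  | 2 => ![(false, false, true), (false, true, true), (true, false, true), (true, false, true)]
  | 3 => ![(false, true, false), (false, true, true), (true, false, false), (true, true, true)]
  | 4 => ![(false, false, true), (true, false, true), (true, true, false), (true, true, true)]

/-- value of the linear form `p` at `w` -/
def sel {A : Type} [AddCommMonoid A] (p : Bool × Bool × Bool) (w : A × A × A) : A :=
  (if p.1 then w.1 else 0) + ((if p.2.1 then w.2.1 else 0) + (if p.2.2 then w.2.2 else 0))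

/-- not exactly two of three are true -/
def lin (a b c : Bool) : Bool := !((a && b && !c) || (a && c && !b) || (b && c && !a))

/-- the finite check: `z1 z2 z3 z12 z13 z23 z123` tell which of the seven forms vanish -/
lemma table : ∀ z1 z2 z3 z12 z13 z23 z123 : Bool,
    lin z1 z2 z12 = true → lin z1 z3 z13 = true → lin z2 z3 z23 = true → lin z12 z3 z123 = true →
    lin z13 z2 z123 = true → lin z23 z1 z123 = true → lin z12 z13 z23 = true →
    (z1 && z2 && z3) = false →
    Odd ((if (!z1) = true then 1 else 0) + (if (!z2 && !z12) = true then 1 else 0) +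
      (if (!z3 && !z23 && !z13) = true then 1 else 0) +
      (if (!z2 && !z23 && !z1 && !z123) = true then 1 else 0) +
      (if (!z3 && !z13 && !z12 && !z123) = true then 1 else 0)) := by
  decide

section group

variable {A : Type} [AddCommGroup A] [DecidableEq A]

lemma lin_of {a b c : A} (h : a + b + c = 0) :
    lin (decide (a = 0)) (decide (b = 0)) (decide (c = 0)) = true := by
  have h1 : a = 0 → b = 0 → c = 0 := by
    rintro rfl rfl; simpa using h
  have h2 : a = 0 → c = 0 → b = 0 := by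
    rintro rfl rfl; simpa using h
  have h3 : b = 0 → c = 0 → a = 0 := by
    rintro rfl rfl; simpa using h
  unfold lin
  by_cases ha : a = 0 <;> by_cases hb : b = 0 <;> by_cases hc : c = 0 <;> simp_all

/-- The parity statement: for `w ≠ 0`, an odd number of the five blocks contains no form vanishing
at `w`. -/
lemma parity (hA : ∀ a : A, a + a = 0) (w : A × A × A) (hw : w ≠ 0) :
    Odd (univ.filter (fun i : Fin 5 => ∀ j : Fin 4, sel (pt i j) w ≠ 0)).card := by
  obtain ⟨a, b, c⟩ := w
  have hne : ¬ (a = 0 ∧ b = 0 ∧ c = 0) := by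
    rintro ⟨rfl, rfl, rfl⟩
    exact hw rfl
  have key := table (decide (a = 0)) (decide (b = 0)) (decide (c = 0)) (decide (a + b = 0))
    (decide (a + c = 0)) (decide (b + c = 0)) (decide (a + b + c = 0))
    (lin_of (hA (a + b)))
    (lin_of (hA (a + c)))
    (lin_of (hA (b + c)))
    (lin_of (hA (a + b + c)))
    (lin_of (by rw [show a + c + b = a + b + c by abel]; exact hA _))
    (lin_of (by rw [show b + c + a = a + b + c by abel]; exact hA _))
    (lin_of (by
      rw [show a + b + (a + c) + (b + c) = (a + b + c) + (a + b + c) by abel]; exact hA _))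
    (by
      by_cases ha : a = 0 <;> by_cases hb : b = 0 <;> by_cases hc : c = 0 <;> simp_all)
  rw [Finset.card_filter, Fin.sum_univ_five]
  convert key using 3 <;>
  · simp only [Fin.forall_fin_succ, IsEmpty.forall_iff, and_true, pt, sel]
    simp [and_assoc, add_assoc]

end group

/-! ### The cliques -/

section clique

variable (s k n : ℕ)

/-- an elementary abelian 2-group of order `2^s` -/
abbrev Grp : Type := Fin s → ZMod 2

lemma grp_two (a : Grp s) : a + a = 0 := by
  funext i
  have : ∀ x : ZMod 2, x + x = 0 := by decide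
  exact this (a i)

/-- which of the four slots the `j`-th element belongs to -/
def slot (j : Fin k) : Fin 4 := ⟨min j.val 3, by omega⟩

lemma slot_surj (hk : 4 ≤ k) (j : Fin 4) : ∃ i : Fin k, slot k i = j := by
  refine ⟨⟨j.val, by omega⟩, ?_⟩
  apply Fin.ext
  simp only [slot]
  omega

lemma sel_sub {A : Type} [AddCommGroup A] (p : Bool × Bool × Bool) (u v : A × A × A) :
    sel p (u - v) = sel p u - sel p v := by
  obtain ⟨a, b, c⟩ := p
  unfold sel
  cases a <;> cases b <;> cases c <;> simp <;> abel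

variable {s k n}

/-- the `i`-th set of the tuple of `u` -/
def XX (φ : Fin k × Grp s ↪ Fin n) (u : Grp s × Grp s × Grp s) (i : Fin 5) : Finset (Fin n) :=
  univ.map ⟨fun j : Fin k => φ (j, sel (pt i (slot k j)) u), fun j j' h => by
    have := φ.injective h
    exact (Prod.mk.inj this).1⟩

lemma XX_card (φ : Fin k × Grp s ↪ Fin n) (u : Grp s × Grp s × Grp s) (i : Fin 5) :
    (XX φ u i).card = k := by
  unfold XX
  rw [Finset.card_map]
  simp

lemma XX_disj (hk : 4 ≤ k) (φ : Fin k × Grp s ↪ Fin n) (u v : Grp s × Grp s × Grp s) (i : Fin 5) :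
    Disjoint (XX φ u i) (XX φ v i) ↔ ∀ j : Fin 4, sel (pt i j) (u - v) ≠ 0 := by
  rw [Finset.disjoint_left]
  constructor
  · intro h j hj
    obtain ⟨j', hj'⟩ := slot_surj k hk j
    rw [sel_sub, sub_eq_zero] at hj
    have h1 : φ (j', sel (pt i (slot k j')) u) ∈ XX φ u i := by
      unfold XX
      rw [Finset.mem_map]
      exact ⟨j', mem_univ _, rfl⟩
    apply h h1
    unfold XX
    rw [Finset.mem_map]
    refine ⟨j', mem_univ _, ?_⟩
    change φ (j', sel (pt i (slot k j')) v) = φ (j', sel (pt i (slot k j')) u)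
    rw [hj', hj]
  · intro h a ha hb
    unfold XX at ha hb
    rw [Finset.mem_map] at ha hb
    obtain ⟨j, -, hj⟩ := ha
    obtain ⟨j', -, hj'⟩ := hb
    have h1 : φ (j, sel (pt i (slot k j)) u) = φ (j', sel (pt i (slot k j')) v) := hj.trans hj'.symm
    have h2 := φ.injective h1
    have h3 : j = j' := (Prod.mk.inj h2).1
    subst h3
    have h4 : sel (pt i (slot k j)) u = sel (pt i (slot k j)) v := (Prod.mk.inj h2).2
    apply h (slot k j)
    rw [sel_sub, h4, sub_self]

/-- the tuple of `u` -/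
def FF (φ : Fin k × Grp s ↪ Fin n) (u : Grp s × Grp s × Grp s) :
    Fin 5 → {X : Finset (Fin n) // X.card = k} :=
  fun i => ⟨XX φ u i, XX_card φ u i⟩

lemma FF_adj (hk : 4 ≤ k) (φ : Fin k × Grp s ↪ Fin n) {u v : Grp s × Grp s × Grp s} (huv : u ≠ v) :
    (KGpow 5 n k).Adj (FF φ u) (FF φ v) := by
  have hodd : Odd (univ.filter (fun i => Disjoint (FF φ u i).1 (FF φ v i).1)).card := by
    have h1 := parity (grp_two s) (u - v) (sub_ne_zero.mpr huv)
    have h2 : univ.filter (fun i : Fin 5 => Disjoint (FF φ u i).1 (FF φ v i).1) =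
        univ.filter (fun i : Fin 5 => ∀ j : Fin 4, sel (pt i j) (u - v) ≠ 0) := by
      ext i
      rw [mem_filter, mem_filter]
      simp only [mem_univ, true_and]
      exact XX_disj hk φ u v i
    rw [h2]
    exact h1
  refine ⟨?_, hodd⟩
  intro heq
  have hpos : 0 < (univ.filter (fun i => Disjoint (FF φ u i).1 (FF φ v i).1)).card := hodd.pos
  obtain ⟨i, hi⟩ := Finset.card_pos.mp hpos
  rw [mem_filter, heq, disjoint_self] at hi
  have h1 := (FF φ v i).2
  have h2 : (FF φ v i).1 = ∅ := hi.2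
  rw [h2, card_empty] at h1
  omega

lemma clique_bound (hk : 4 ≤ k) (hn : k * 2 ^ s ≤ n) : (2 ^ s) ^ 3 ≤ f 5 n k := by
  classical
  have hcard : Fintype.card (Fin k × Grp s) ≤ Fintype.card (Fin n) := by
    simp only [Fintype.card_prod, Fintype.card_fin, Fintype.card_pi, Finset.prod_const, card_univ,
      ZMod.card]
    exact hn
  obtain ⟨φ⟩ := Function.Embedding.nonempty_of_card_le hcard
  have hinj : Function.Injective (FF φ) := by
    intro u v huv
    by_contra hne
    exact (FF_adj hk φ hne).1 huv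
  have hclq : (KGpow 5 n k).IsClique ((univ.image (FF φ) : Finset _) : Set (Fin 5 → {X : Finset (Fin n) // X.card = k})) := by
    intro X hX Y hY hXY
    rw [Finset.mem_coe, mem_image] at hX hY
    obtain ⟨u, -, rfl⟩ := hX
    obtain ⟨v, -, rfl⟩ := hY
    exact FF_adj hk φ (fun h => hXY (by rw [h]))
  have h1 := SimpleGraph.IsClique.card_le_cliqueNum (tc := hclq)
  rw [Finset.card_image_of_injective _ hinj] at h1
  refine le_trans (le_of_eq ?_) h1
  simp only [card_univ, Fintype.card_prod, Fintype.card_pi, Finset.prod_const, Fintype.card_fin,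
    ZMod.card]
  ring

lemma main_bound (hk : 4 ≤ k) (hn : k ≤ n) : n ^ 3 ≤ (2 * k) ^ 3 * f 5 n k := by
  have hdiv : n / k ≠ 0 := by
    rw [Nat.div_ne_zero_iff]
    exact ⟨by omega, hn⟩
  have h1 : 2 ^ (Nat.log 2 (n / k)) ≤ n / k := Nat.pow_log_le_self 2 hdiv
  have h2 : n / k < 2 ^ (Nat.log 2 (n / k) + 1) := Nat.lt_pow_succ_log_self (by norm_num) _
  set s := Nat.log 2 (n / k)
  have h3 : k * 2 ^ s ≤ n := by
    calc k * 2 ^ s ≤ k * (n / k) := Nat.mul_le_mul_left _ h1
      _ ≤ n := Nat.mul_div_le n k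
  have h4 : n ≤ 2 * k * 2 ^ s := by
    rw [Nat.div_lt_iff_lt_mul (by omega)] at h2
    rw [pow_succ] at h2
    nlinarith
  calc n ^ 3 ≤ (2 * k * 2 ^ s) ^ 3 := Nat.pow_le_pow_left h4 3
    _ = (2 * k) ^ 3 * (2 ^ s) ^ 3 := by ring
    _ ≤ (2 * k) ^ 3 * f 5 n k := Nat.mul_le_mul_left _ (clique_bound hk h3)

end clique

/-- For `ℓ = 5` (where `e(ℓ) = 2`) and every `k ≥ 4`, the clique number is at least `(n/2k)³` for all
`n ≥ k`; hence the asserted formula `f_ℓ(n,k) = Θ(n^{e(ℓ)})` for all large `k` fails. -/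
theorem result :
    e 5 = 2 ∧
    (∀ n k : ℕ, 4 ≤ k → k ≤ n → n ^ 3 ≤ (2 * k) ^ 3 * f 5 n k) ∧
    (∀ k : ℕ, 4 ≤ k → ∀ C : ℝ, ∃ n : ℕ, C * (n : ℝ) ^ e 5 < f 5 n k) ∧
    ¬ (∀ l : ℕ, 1 ≤ l → ∃ k0 : ℕ, ∀ k : ℕ, k0 ≤ k →
      (fun n : ℕ => (f l n k : ℝ)) =Θ[Filter.atTop] (fun n : ℕ => (n : ℝ) ^ e l)) := by
  have he : e 5 = 2 := by
    unfold e
    rw [Nat.log_eq_iff (Or.inl (by norm_num))]
    norm_num
  have hbig : ∀ k : ℕ, 4 ≤ k → ∀ C : ℝ, ∃ N : ℕ, ∀ n : ℕ, N ≤ n → C * (n : ℝ) ^ e 5 < f 5 n k := by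
    intro k hk C
    obtain ⟨N, hN⟩ := exists_nat_gt (C * (2 * k) ^ 3)
    refine ⟨N + k, fun n hn => ?_⟩
    have h1 : ((n ^ 3 : ℕ) : ℝ) ≤ ((2 * k) ^ 3 * f 5 n k : ℕ) := by
      exact_mod_cast main_bound hk (show k ≤ n by omega)
    push_cast at h1
    have h2 : (C * (2 * k) ^ 3 : ℝ) < n := lt_of_lt_of_le hN (by exact_mod_cast (show N ≤ n by omega))
    have hn0 : (0 : ℝ) < n := by exact_mod_cast (show 0 < n by omega)
    have hk0 : (0 : ℝ) < (2 * k) ^ 3 := by
      have : (0 : ℝ) < k := by exact_mod_cast (show 0 < k by omega)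
      positivity
    rw [he]
    have h3 : (2 * (k : ℝ)) ^ 3 * (C * (n : ℝ) ^ 2) < (2 * k) ^ 3 * f 5 n k := by
      calc (2 * (k : ℝ)) ^ 3 * (C * (n : ℝ) ^ 2) = (C * (2 * (k : ℝ)) ^ 3) * (n : ℝ) ^ 2 := by ring
        _ < (n : ℝ) * (n : ℝ) ^ 2 := by
          apply mul_lt_mul_of_pos_right h2
          positivity
        _ = (n : ℝ) ^ 3 := by ring
        _ ≤ _ := h1
    exact lt_of_mul_lt_mul_left h3 hk0.le
  refine ⟨he, fun n k hk hn => main_bound hk hn, ?_, ?_⟩
  · intro k hk C
    obtain ⟨N, hN⟩ := hbig k hk C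
    exact ⟨N, hN N le_rfl⟩
  · intro h
    obtain ⟨k0, hk0⟩ := h 5 (by norm_num)
    have h1 := (hk0 (k0 + 4) (by omega)).1
    rw [Asymptotics.isBigO_iff] at h1
    obtain ⟨C, hC⟩ := h1
    rw [Filter.eventually_atTop] at hC
    obtain ⟨M, hM⟩ := hC
    obtain ⟨N, hN⟩ := hbig (k0 + 4) (by omega) C
    have h2 := hM (M + N) (by omega)
    have h3 := hN (M + N) (by omega)
    rw [Real.norm_of_nonneg (by positivity), Real.norm_of_nonneg (by positivity)] at h2
    exact absurd h3 (not_lt.mpr h2)

end Pool.Agent.Results.MP_e3e024_co.FanoLabels
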